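import Pool.Agent.MWL.Stmts

set_option autoImplicit false

namespace Pool.Agent.MWL.H77

open Pool.Agent.MVO

theorem trn : TrnStmt := by
  intro n R k a i
  refine ⟨fun b hab => ?_, fun d h => ?_, fun b hab => ?_, fun k' f hf hi h => ?_⟩
  · have h1 : R.R k (ad n a i) (ad n b i) := R.add (fun j => if j = i then 2 * n else 0) hab
    constructor
    · intro h
      exact R.trans (R.symm hab) (R.trans h h1)
    · intro h
      exact R.trans hab (R.trans h (R.symm h1))
  · refine R.ext (fun j _ => rfl) (fun j _ => ?_) (R.add d h)
    show a j + (if j = i then 2 * n else 0) + d j = a j + d j + if j = i then 2 * n else 0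
    ring
  · have key : ∀ a b : ℕ → ℕ, (∀ j ≤ k, a j = b j) → Ab n R k a i → Ab n R k b i := by
      intro a b hab h
      refine R.ext hab (fun j hj => ?_) h
      show a j + (if j = i then 2 * n else 0) = b j + if j = i then 2 * n else 0
      rw [hab j hj]
    exact ⟨key a b hab, key b a fun j hj => (hab j hj).symm⟩
  · refine R.ext (fun j _ => rfl) (fun j _ => ?_) (R.push k' f hf h)
    show psh k f (ad n a i) j = psh k f a j + if j = f i then 2 * n else 0
    unfold psh ad
    have h1 : ∀ l ∈ Finset.range (k + 1), (if f l = j then (a l + if l = i then 2 * n else 0)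
        else 0) = (if f l = j then a l else 0) +
        (if l = i then (if f i = j then 2 * n else 0) else 0) := by
      intro l _
      by_cases hl : l = i
      · subst hl
        by_cases hf : f l = j <;> simp [hf]
      · by_cases hf : f l = j <;> simp [hf, hl]
    rw [Finset.sum_congr rfl h1, Finset.sum_add_distrib, Finset.sum_ite_eq',
      if_pos (Finset.mem_range.mpr (by omega))]
    by_cases hf : f i = j
    · rw [if_pos hf, if_pos hf.symm]
    · rw [if_neg hf, if_neg fun h => hf h.symm]

end Pool.Agent.MWL.H77
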